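import Pool.Agent.R489.SQ.Stm

/-!
# Project SQ (helper489, MP_115f12_co), job SQ-N1
-/

set_option autoImplicit false

open Finset

namespace Pool.Agent.R68.SQ

open Pool.Agent.R489.SQ

open scoped Classical in
/-- `k` indices with the largest capacities -/
theorem exists_top {ι : Type} (I : Finset ι) (c : ι → ℕ) : ∀ k : ℕ, k ≤ I.card →
    ∃ A ⊆ I, A.card = k ∧ ∀ i ∈ A, ∀ j ∈ I \ A, c j ≤ c i := by
  intro k
  induction k with
  | zero => intro _; exact ⟨∅, by simp, by simp, by simp⟩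
  | succ k ih =>
    intro hk
    obtain ⟨A, hA, hc, hA2⟩ := ih (by omega)
    have hne : (I \ A).Nonempty := by
      rw [← Finset.card_pos, Finset.card_sdiff_of_subset hA]
      omega
    obtain ⟨b, hb, hb2⟩ := Finset.exists_max_image (I \ A) c hne
    have hb' := Finset.mem_sdiff.1 hb
    refine ⟨insert b A, ?_, ?_, ?_⟩
    · intro x hx
      rw [Finset.mem_insert] at hx
      rcases hx with rfl | hx
      · exact hb'.1
      · exact hA hx
    · rw [Finset.card_insert_of_notMem hb'.2, hc]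
    · intro i hi j hj
      rw [Finset.mem_sdiff, Finset.mem_insert, not_or] at hj
      have hj' : j ∈ I \ A := Finset.mem_sdiff.2 ⟨hj.1, hj.2.2⟩
      rw [Finset.mem_insert] at hi
      rcases hi with rfl | hi
      · exact hb2 j hj'
      · exact hA2 i hi j hj'

open scoped Classical in
/-- greedy choice -/
theorem greedy {ι : Type} (w : ι → ℕ) (m n : ℕ) (B : Finset ι) : (∀ i ∈ B, w i ≤ m) →
    n ≤ ∑ i ∈ B, w i → ∃ R ⊆ B, ∑ i ∈ R, w i ≤ n ∧ n ≤ ∑ i ∈ R, w i + m := by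
  induction B using Finset.induction_on with
  | empty =>
    intro _ h
    refine ⟨∅, by simp, by simp, ?_⟩
    rw [Finset.sum_empty] at h
    omega
  | insert b B hb ih =>
    intro hw h
    by_cases h2 : n ≤ ∑ i ∈ B, w i
    · obtain ⟨R, hR, h3⟩ := ih (fun i hi => hw i (Finset.mem_insert_of_mem hi)) h2
      exact ⟨R, hR.trans (Finset.subset_insert b B), h3⟩
    · rw [Finset.sum_insert hb] at h
      have := hw b (Finset.mem_insert_self b B)
      exact ⟨B, Finset.subset_insert b B, by omega, by omega⟩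

open scoped Classical in
theorem n1 : StmtN1 := by
  intro ι I c n hc hn h7
  obtain ⟨a, ha⟩ := hn
  by_cases hbig : ∃ i ∈ I, n ≤ c i
  · obtain ⟨i, hi, hi2⟩ := hbig
    refine ⟨fun j => if j = i then a else 0, fun j hj => ?_, ?_⟩
    · simp only
      split_ifs with h
      · rw [h, sq, ← ha]; exact hi2
      · simp
    · rw [Finset.sum_eq_single i]
      · simp only [if_true]
        rw [sq, ha]
      · intro j _ hj
        simp only [if_neg hj]
        rfl
      · intro h; exact absurd hi h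
  push Not at hbig
  rcases Nat.eq_zero_or_pos n with hn0 | hn0
  · exact ⟨fun _ => 0, fun i _ => by simp, by simp [hn0]⟩
  have hcard : 4 ≤ I.card := by
    by_contra hlt
    have h1 : ∑ i ∈ I, c i ≤ I.card • n := Finset.sum_le_card_nsmul _ _ _ fun i hi => (hbig i hi).le
    rw [smul_eq_mul] at h1
    have h2 : I.card * n ≤ 3 * n := Nat.mul_le_mul_right _ (by omega)
    omega
  obtain ⟨A, hA, hA4, hA2⟩ := exists_top I c 4 hcard
  have hAne : A.Nonempty := by rw [← Finset.card_pos]; omega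
  obtain ⟨i₀, hi₀, hmin⟩ := Finset.exists_min_image A c hAne
  have hout : ∀ j ∈ I \ A, c j ≤ c i₀ := fun j hj => hA2 i₀ hi₀ j hj
  have hw : ∀ j, (Nat.sqrt (c j)) ^ 2 ≤ c j := fun j => by
    rw [sq]; exact Nat.sqrt_le (c j)
  have hw3 : ∀ j ∈ I, c j ≤ 3 * (Nat.sqrt (c j)) ^ 2 := by
    intro j hj
    have h1 := Nat.sqrt_le_add (c j)
    have h2 : 1 ≤ Nat.sqrt (c j) := Nat.sqrt_pos.2 (hc j hj)
    nlinarith
  have hsum : n ≤ ∑ j ∈ I \ A, (Nat.sqrt (c j)) ^ 2 := by
    have h1 : ∑ j ∈ I \ A, c j ≤ 3 * ∑ j ∈ I \ A, (Nat.sqrt (c j)) ^ 2 := by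
      rw [Finset.mul_sum]
      exact Finset.sum_le_sum fun j hj => hw3 j (Finset.mem_sdiff.1 hj).1
    have h2 : ∑ j ∈ A, c j ≤ A.card • n :=
      Finset.sum_le_card_nsmul _ _ _ fun i hi => (hbig i (hA hi)).le
    rw [hA4, smul_eq_mul] at h2
    have h3 := Finset.sum_sdiff hA (f := c)
    omega
  obtain ⟨R, hR, hR1, hR2⟩ := greedy (fun j => (Nat.sqrt (c j)) ^ 2) (c i₀) n (I \ A)
    (fun j hj => (hw j).trans (hout j hj)) hsum
  obtain ⟨q0, q1, q2, q3, hq⟩ := Nat.sum_four_squares (n - ∑ i ∈ R, (Nat.sqrt (c i)) ^ 2)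
  let f : Fin 4 → ℕ := ![q0, q1, q2, q3]
  have hf : ∑ k, f k ^ 2 = n - ∑ i ∈ R, (Nat.sqrt (c i)) ^ 2 := by
    rw [Fin.sum_univ_four]
    exact hq
  have hfle : ∀ k, f k ^ 2 ≤ n - ∑ i ∈ R, (Nat.sqrt (c i)) ^ 2 := by
    intro k
    rw [← hf]
    exact Finset.single_le_sum (f := fun k => f k ^ 2) (fun _ _ => Nat.zero_le _) (Finset.mem_univ k)
  let e : A ≃ Fin 4 := A.equivFinOfCardEq hA4
  refine ⟨fun i => if h : i ∈ A then f (e ⟨i, h⟩) else if i ∈ R then Nat.sqrt (c i) else 0,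
    fun i hi => ?_, ?_⟩
  · simp only
    split_ifs with h h'
    · have h1 := hfle (e ⟨i, h⟩)
      have h2 := hmin i h
      omega
    · exact hw i
    · simp
  · rw [← Finset.sum_sdiff hA]
    have h1 : ∑ i ∈ I \ A, (if h : i ∈ A then f (e ⟨i, h⟩) else
        if i ∈ R then Nat.sqrt (c i) else 0) ^ 2 = ∑ i ∈ R, (Nat.sqrt (c i)) ^ 2 := by
      rw [← Finset.sum_subset hR]
      · refine Finset.sum_congr rfl fun i hi => ?_
        rw [dif_neg (Finset.mem_sdiff.1 (hR hi)).2, if_pos hi]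
      · intro i hi hi2
        rw [dif_neg (Finset.mem_sdiff.1 hi).2, if_neg hi2]
        rfl
    have h2 : ∑ i ∈ A, (if h : i ∈ A then f (e ⟨i, h⟩) else
        if i ∈ R then Nat.sqrt (c i) else 0) ^ 2 = ∑ k, f k ^ 2 := by
      rw [← Finset.sum_coe_sort A, ← Equiv.sum_comp e]
      refine Finset.sum_congr rfl fun i _ => ?_
      rw [dif_pos i.2]
    rw [h1, h2, hf]
    omega

end Pool.Agent.R68.SQ
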